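import Pool.Agent.Lib.MP_33b3f9_ag.MG.MorP

/-!
The rational space is free over the quaternion algebra.
-/

set_option autoImplicit false

noncomputable section

namespace MG.F

open Matrix Module

theorem free_step {E V : Type} [Field E] [AddCommGroup V] [Module E V] [Module.Finite E V]
    (β : V →+ V) (bar : E → E) (hβ : ∀ x v, β (x • v) = bar x • β v) {n z : E} (hn : n ≠ 0)
    (hββ : ∀ v, β (β v) = n • v) (hz : bar z ≠ z) (W : Submodule E V) (hW : ∀ v ∈ W, β v ∈ W)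
    (hk : finrank E W + 2 ≤ finrank E V) :
    ∃ v, ∀ x y : E, x • v + y • β v ∈ W → x = 0 ∧ y = 0 := by
  obtain ⟨f, hf⟩ := exists_linearIndependent_of_le_finrank (R := E) (M := V ⧸ W) (n := 2)
    (by have := W.finrank_quotient_add_finrank; omega)
  obtain ⟨u, hu⟩ := W.mkQ_surjective (f 0)
  obtain ⟨w, hw⟩ := W.mkQ_surjective (f 1)
  have key : ∀ s t : E, s • u + t • w ∈ W → s = 0 ∧ t = 0 := fun s t h => by
    have h1 := Fintype.linearIndependent_iff.1 hf ![s, t] (by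
      rw [Fin.sum_univ_two, ← hu, ← hw, ← map_smul, ← map_smul, ← map_add]
      exact (Submodule.Quotient.mk_eq_zero W).2 h)
    exact ⟨h1 0, h1 1⟩
  by_contra hc
  have h1 : ∀ s t : E, s ≠ 0 ∨ t ≠ 0 → ∃ c : E, β (s • u + t • w) - c • (s • u + t • w) ∈ W := by
    intro s t h
    by_contra h2
    refine hc ⟨s • u + t • w, fun x y hxy => ?_⟩
    have hy : y = 0 := by
      by_contra hy
      refine h2 ⟨-(y⁻¹ * x), ?_⟩
      have h3 := W.smul_mem y⁻¹ hxy
      rwa [smul_add, inv_smul_smul₀ hy, smul_smul, add_comm, ← sub_neg_eq_add, ← neg_smul] at h3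
    rw [hy, zero_smul, add_zero, smul_add, smul_smul, smul_smul] at hxy
    obtain ⟨h3, h4⟩ := key _ _ hxy
    exact ⟨h.elim (mul_eq_zero.1 h3).resolve_right (mul_eq_zero.1 h4).resolve_right, hy⟩
  obtain ⟨c1, e1⟩ := h1 1 0 (.inl one_ne_zero)
  obtain ⟨c2, e2⟩ := h1 0 1 (.inr one_ne_zero)
  obtain ⟨c3, e3⟩ := h1 1 1 (.inl one_ne_zero)
  obtain ⟨c4, e4⟩ := h1 1 z (.inl one_ne_zero)
  simp only [one_smul, zero_smul, add_zero, zero_add, map_add, hβ] at e1 e2 e3 e4
  obtain ⟨h2, h3⟩ := key (c1 - c3) (c2 - c3) (by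
    refine (congrArg (· ∈ W) ?_).mp (W.sub_mem (W.sub_mem e3 e1) e2)
    module)
  obtain ⟨h4, h5⟩ := key (c1 - c4) (bar z * c2 - c4 * z) (by
    refine (congrArg (· ∈ W) ?_).mp (W.sub_mem (W.sub_mem e4 e1) (W.smul_mem (bar z) e2))
    module)
  have h6 : c1 = 0 := (mul_eq_zero.1 (show (bar z - z) * c1 = 0 by
    linear_combination h5 + bar z * (h2 - h3) - z * h4)).resolve_left (sub_ne_zero.2 hz)
  rw [h6, zero_smul, sub_zero] at e1
  exact hn (key n 0 (by rw [zero_smul, add_zero, ← hββ]; exact hW _ e1)).1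

theorem free_ind {E V : Type} [Field E] [AddCommGroup V] [Module E V] [Module.Finite E V]
    (β : V →+ V) (bar : E → E) (hβ : ∀ x v, β (x • v) = bar x • β v) {n z : E} (hn : n ≠ 0)
    (hββ : ∀ v, β (β v) = n • v) (hz : bar z ≠ z) (k : ℕ) (hk : 2 * k ≤ finrank E V) :
    ∃ v : Fin k → V, LinearIndependent E (Sum.elim v fun i => β (v i)) := by
  induction k with
  | zero => exact ⟨fun _ => 0, linearIndependent_empty_type⟩
  | succ k ih =>
    obtain ⟨v, hv⟩ := ih (by omega)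
    obtain ⟨u, hu⟩ := free_step β bar hβ hn hββ hz
      (Submodule.span E (Set.range (Sum.elim v fun i => β (v i)))) (fun x hx => by
        induction hx using Submodule.span_induction with
        | mem x hx =>
          obtain ⟨i | i, rfl⟩ := hx
          · exact Submodule.subset_span ⟨.inr i, rfl⟩
          · rw [Sum.elim_inr, hββ]
            exact Submodule.smul_mem _ _ (Submodule.subset_span ⟨.inl i, rfl⟩)
        | zero => rw [map_zero]; exact zero_mem _
        | add x y _ _ h1 h2 => rw [map_add]; exact add_mem h1 h2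
        | smul c x _ h => rw [hβ]; exact Submodule.smul_mem _ _ h)
      (by rw [finrank_span_eq_card hv, Fintype.card_sum, Fintype.card_fin]; omega)
    refine ⟨Fin.cons u v, Fintype.linearIndependent_iff.2 fun g hg => ?_⟩
    have h1 := Fintype.linearIndependent_iff.1 hv fun i => g (i.map Fin.succ Fin.succ)
    simp only [Fintype.sum_sum_type, Fin.sum_univ_succ, Sum.elim_inl, Sum.elim_inr, Fin.cons_zero,
      Fin.cons_succ, Sum.map_inl, Sum.map_inr] at hg h1
    rw [add_add_add_comm] at hg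
    obtain ⟨h2, h3⟩ := hu (g (.inl 0)) (g (.inr 0)) (by
      rw [eq_neg_of_add_eq_zero_left hg]
      exact neg_mem (add_mem
        (sum_mem fun i _ => Submodule.smul_mem _ _ (Submodule.subset_span ⟨.inl i, rfl⟩))
        (sum_mem fun i _ => Submodule.smul_mem _ _ (Submodule.subset_span ⟨.inr i, rfl⟩))))
    rw [h2, h3, zero_smul, zero_smul, zero_add, zero_add] at hg
    rintro (i | i) <;> refine Fin.cases ?_ (fun j => ?_) i
    exacts [h2, h1 hg (.inl j), h3, h1 hg (.inr j)]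

variable [Dim] {e : ℕ} {a b : MZ} {m n : ℕ}

theorem free_bar (D : PD e a b m n) : D.φ (D.bar D.z) = zM ℚ (adj a) := by
  have h0 : D.z ≠ 0 := fun c => by
    have := D.mul
    rw [c, mul_zero] at this
    exact D.pel.m0.ne' (Nat.cast_eq_zero.1 this.symm)
  refine ((Ne.isUnit h0).map D.φ).mul_right_cancel ?_
  rw [← map_mul, D.mul, map_natCast, D.φz, (D.pel.rel ℚ).2.2.2.2, Nat.cast_smul_eq_nsmul,
    nsmul_one]

theorem free_sq (D : PD e a b m n) :
    D.φ (Polynomial.aeval (D.z + D.bar D.z) D.pel.β) = zM ℚ b * zM ℚ b := by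
  rw [(D.pel.rel ℚ).2.1, ← free_bar D, ← D.φz, ← map_add]
  exact (Polynomial.aeval_algHom_apply D.φ.toIntAlgHom _ _).symm

theorem free_tw (D : PD e a b m n) (x : D.E) : zM ℚ b * D.φ x = D.φ (D.bar x) * zM ℚ b := by
  obtain ⟨-, -, -, r1, -⟩ := D.pel.rel ℚ
  have h1 := free_bar D
  have hx : x ∈ Algebra.adjoin ℚ {D.z} := D.gen ▸ Algebra.mem_top
  induction hx using Algebra.adjoin_induction with
  | mem x hx => rw [Set.mem_singleton_iff.1 hx, h1, D.φz, r1]
  | algebraMap q =>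
    rw [eq_ratCast, map_ratCast D.bar, ← eq_ratCast (algebraMap ℚ D.E),
      ← RingHom.toRatAlgHom_apply D.φ, AlgHom.commutes]
    exact (Algebra.commutes q _).symm
  | add x y _ _ h2 h3 => rw [map_add, map_add, map_add, mul_add, add_mul, h2, h3]
  | mul x y _ _ h2 h3 =>
    rw [map_mul, map_mul, map_mul, ← mul_assoc, h2, mul_assoc, h3, mul_assoc]

/-- The standard basis of the quaternion algebra. -/
def dd (e : ℕ) (a b : MZ) (k : Fin (2 * e) × Bool) : MZ := a ^ (k.1 : ℕ) * cond k.2 b 1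

theorem free_four (h : PEL e a b m n) : ∃ v : Fin 4 → ν → ℚ, LinearIndependent ℚ
    fun p : (Fin (2 * e) × Bool) × Fin 4 => zM ℚ (dd e a b p.1) *ᵥ v p.2 := by
  obtain ⟨D⟩ := h.pd
  let _ : Module D.E (ν → ℚ) := Module.compHom _
    ((Matrix.toLinAlgEquiv' (R := ℚ) (n := ν)).toRingEquiv.toRingHom.comp D.φ)
  have hs : ∀ (x : D.E) (v : ν → ℚ), x • v = D.φ x *ᵥ v := fun _ _ => rfl
  have hq : ∀ q : ℚ, D.φ (algebraMap ℚ D.E q) = algebraMap ℚ _ q := D.φ.toRatAlgHom.commutes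
  have : IsScalarTower ℚ D.E (ν → ℚ) := ⟨fun q x v => by
    rw [hs, hs, Algebra.smul_def, map_mul, hq, ← Algebra.smul_def, smul_mulVec]⟩
  have : Module.Finite D.E (ν → ℚ) := Module.Finite.of_restrictScalars_finite ℚ _ _
  have h0 : 0 < e := h.pos
  have h1 : finrank D.E (ν → ℚ) = 8 := by
    have := finrank_mul_finrank ℚ D.E (ν → ℚ)
    rw [D.rank, finrank_fintype_fun_eq_card, Fintype.card_sum, h.card] at this
    exact Nat.eq_of_mul_eq_mul_left (by omega : 0 < 2 * e) (by omega)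
  have h2 : minpoly ℚ D.z = minpoly ℚ (zM ℚ a) := by
    rw [← D.φz]
    exact (minpoly.algHom_eq D.φ.toRatAlgHom D.φ.injective D.z).symm
  obtain ⟨j⟩ : Nonempty (D.E →+* ℂ) := inferInstance
  obtain ⟨v, hv⟩ := free_ind (E := D.E) (zM ℚ b).mulVecLin.toAddMonoidHom D.bar
    (fun x v => by
      change zM ℚ b *ᵥ D.φ x *ᵥ v = D.φ (D.bar x) *ᵥ zM ℚ b *ᵥ v
      rw [mulVec_mulVec, mulVec_mulVec, free_tw])
    (n := Polynomial.aeval (D.z + D.bar D.z) D.pel.β) (z := D.z)
    (fun c => ((h.unit_b ℚ).mul (h.unit_b ℚ)).ne_zero (by rw [← free_sq D, c, map_zero]))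
    (fun v => by
      change zM ℚ b *ᵥ zM ℚ b *ᵥ v = D.φ _ *ᵥ v
      rw [mulVec_mulVec, free_sq])
    (fun c => (h.root (j D.z) (by rw [← morp_ev, ← h2, minpoly.aeval, map_zero])).2
      (Complex.conj_eq_iff_im.1 (by rw [← D.conj, c]))) 4 h1.ge
  have h3 : LinearIndependent ℚ fun i : Fin (2 * e) => D.z ^ (i : ℕ) := by
    rw [← h.deg, ← h2]
    exact linearIndependent_pow D.z
  refine ⟨v, (congrArg (LinearIndependent ℚ ·) (funext fun p => ?_)).mp
    ((linearIndependent_smul h3 hv).comp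
      (fun p : (Fin (2 * e) × Bool) × Fin 4 => (p.1.1, cond p.1.2 (.inr p.2) (.inl p.2))) ?_)⟩
  · obtain ⟨⟨i, _ | _⟩, s⟩ := p
    · change D.φ _ *ᵥ v s = zM ℚ (a ^ (i : ℕ) * 1) *ᵥ v s
      rw [map_pow, D.φz, mul_one, zM_pow]
    · change D.φ _ *ᵥ zM ℚ b *ᵥ v s = zM ℚ (a ^ (i : ℕ) * b) *ᵥ v s
      rw [map_pow, D.φz, zM_mul, zM_pow, mulVec_mulVec]
  · rintro ⟨⟨i, _ | _⟩, s⟩ ⟨⟨i', _ | _⟩, s'⟩ e <;> simp_all

end MG.F
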