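import Pool.Agent.Lib.MP_33b3f9_ag.MG.F.Lat
import Pool.Agent.Lib.MP_33b3f9_ag.MG.F.Free

/-!
A basis over the quaternion algebra.
-/

set_option autoImplicit false

noncomputable section

namespace MG.F

open Matrix M4 M4.F

variable [Dim] {e : ℕ} {a b : MZ} {m n : ℕ} {τ : Mat}

/-- The four vectors are a basis over the quaternion algebra, with dual basis `W`. -/
structure Ok [Bs] (e : ℕ) (a b : MZ) : Prop where
  pos : 0 < 2 * e
  deg : (minpoly ℚ (zM ℚ a)).natDegree = 2 * e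
  dual : ∃ W : Fin (2 * e) × Bool → Matrix μ ν ℤ,
    (∀ k l, W k * (dd e a b l * Bs.v) = if k = l then (Bs.c : ℤ) • 1 else 0) ∧
      ∑ k, dd e a b k * Bs.v * W k = (Bs.c : ℤ) • 1

theorem dd_one (h : 0 < 2 * e) : dd e a b (⟨0, h⟩, false) = 1 := by simp [dd]

omit [Dim] in
theorem num_cast {α β : Type} [Fintype α] [Fintype β] (g : Matrix α β ℚ) :
    g.num.map (Int.castRingHom ℚ) = (g.den : ℚ) • g := by
  rw [← inv_smul_eq_iff₀ (Nat.cast_ne_zero.2 g.den_ne_zero)]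
  exact g.inv_denom_smul_num

omit [Dim] in
theorem flip_smul {α β : Type} [Fintype α] [Fintype β] [DecidableEq α] [DecidableEq β]
    (e : Fintype.card α = Fintype.card β) {A : Matrix α β ℤ} {B : Matrix β α ℤ} {c : ℤ} (hc : c ≠ 0)
    (h : A * B = c • 1) : B * A = c • 1 := by
  have h0 : (c : ℚ) ≠ 0 := Int.cast_ne_zero.2 hc
  have h1 : ∀ (γ : Type) [DecidableEq γ],
      (c • (1 : Matrix γ γ ℤ)).map (Int.castRingHom ℚ) = (c : ℚ) • 1 := fun γ _ => by
    ext i j
    simp only [map_apply, Matrix.smul_apply, Matrix.one_apply, smul_eq_mul, mul_ite, mul_one,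
      mul_zero, apply_ite (Int.castRingHom ℚ), eq_intCast, Int.cast_zero]
  have h2 : ((c : ℚ)⁻¹ • A.map (Int.castRingHom ℚ)) * B.map (Int.castRingHom ℚ) = 1 := by
    rw [Matrix.smul_mul, ← Matrix.map_mul, h, h1, inv_smul_smul₀ h0]
  have h3 := (mul_eq_one_comm_of_card_eq α β ℚ e).1 h2
  rw [Matrix.mul_smul, ← Matrix.map_mul, inv_smul_eq_iff₀ h0, ← h1] at h3
  exact Matrix.map_injective Int.cast_injective h3

theorem exists_bs (h : PEL e a b m n) : ∃ _ : Bs, Ok e a b := by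
  obtain ⟨v, hv⟩ := free_four h
  have h0 : 0 < 2 * e := Nat.mul_pos two_pos h.pos
  obtain ⟨V, c, hc, hV⟩ : ∃ (V : Matrix ν μ ℤ) (c : ℚ), c ≠ 0 ∧
      V.map (Int.castRingHom ℚ) = c • (Matrix.of v)ᵀ :=
    ⟨_, _, Nat.cast_ne_zero.2 (Matrix.den_ne_zero _), num_cast _⟩
  let B : Matrix ν ((Fin (2 * e) × Bool) × μ) ℤ := .of fun i p => (dd e a b p.1 * V) i p.2
  have hB : LinearIndependent ℚ (B.map (Int.castRingHom ℚ)).col := by
    refine (congrArg (LinearIndependent ℚ ·) (funext fun p => funext fun i => ?_)).mp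
      (hv.units_smul fun _ => Units.mk0 c hc)
    change c * _ = ((dd e a b p.1 * V).map (Int.castRingHom ℚ)) i p.2
    rw [Matrix.map_mul, hV, Matrix.mul_smul]
    rfl
  obtain ⟨g, hg⟩ := (toLin' (B.map (Int.castRingHom ℚ))).exists_leftInverse_of_injective
    (LinearMap.ker_eq_bot.2 (mulVec_injective_iff.2 hB))
  have h1 : (LinearMap.toMatrix' g).num * B = ((LinearMap.toMatrix' g).den : ℤ) • 1 := by
    refine Matrix.map_injective (f := Int.castRingHom ℚ) Int.cast_injective ?_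
    have h2 := congrArg LinearMap.toMatrix' hg
    rw [LinearMap.toMatrix'_comp, LinearMap.toMatrix'_toLin', LinearMap.toMatrix'_id] at h2
    change Matrix.map _ _ = Matrix.map _ _
    rw [Matrix.map_mul, num_cast, Matrix.smul_mul, h2]
    ext i j
    simp only [map_apply, Matrix.smul_apply, Matrix.one_apply, smul_eq_mul, mul_ite, mul_one,
      mul_zero, apply_ite (Int.castRingHom ℚ), eq_intCast, Int.cast_zero, Int.cast_natCast]
  have hn := (LinearMap.toMatrix' g).den_ne_zero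
  generalize (LinearMap.toMatrix' g).den = d at h1 hn
  generalize (LinearMap.toMatrix' g).num = W at h1
  have key : ∀ k l, (Matrix.of fun s i => W (k, s) i) * (dd e a b l * V) =
      if k = l then (d : ℤ) • 1 else 0 := fun k l => by
    ext s t
    refine (congrFun (congrFun h1 (k, s)) (l, t)).trans ?_
    by_cases h2 : k = l <;> simp [h2, Matrix.one_apply]
  refine ⟨⟨V, _, d, hn, by simpa [dd_one] using key (⟨0, h0⟩, false) (⟨0, h0⟩, false)⟩,
    @Ok.mk _ (_) _ _ _ h0 h.deg ⟨_, key, ?_⟩⟩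
  have h2 := flip_smul (by simp [h.card]; ring) (Int.natCast_ne_zero.2 hn) h1
  ext i j
  refine Eq.trans ?_ (congrFun (congrFun h2 i) j)
  rw [Matrix.sum_apply, Matrix.mul_apply, Fintype.sum_prod_type (α₂ := μ)]
  rfl

theorem aeval_pow (h0 : 0 < 2 * e) (h : (minpoly ℚ (zM ℚ a)).natDegree = 2 * e)
    (c : Polynomial ℤ) : ∃ q : Fin (2 * e) → ℚ,
      zM ℚ (Polynomial.aeval a c) = ∑ i, q i • zM ℚ (a ^ (i : ℕ)) := by
  have h1 := Polynomial.natDegree_modByMonic_lt (c.map (algebraMap ℤ ℚ))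
    (minpoly.monic (Matrix.isIntegral (zM ℚ a))) fun e => by simp [e] at h; omega
  refine ⟨fun i => (c.map (algebraMap ℤ ℚ) %ₘ minpoly ℚ (zM ℚ a)).coeff i, ?_⟩
  simp only [zM_pow]
  rw [Fin.sum_univ_eq_sum_range (fun i => (c.map (algebraMap ℤ ℚ) %ₘ minpoly ℚ (zM ℚ a)).coeff i •
    zM ℚ a ^ i), ← Polynomial.aeval_eq_sum_range' (h ▸ h1), minpoly.aeval_modByMonic_minpoly,
    Polynomial.aeval_map_algebraMap]
  exact (Polynomial.aeval_algHom_apply (Int.castRingHom ℚ).mapMatrix.toIntAlgHom a c).symm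

theorem endQ [Bs] (hb : Ok e a b) (he : EndX a b τ) {g : Matrix ν ν ℚ} (hg : EndQ τ g) :
    ∃ q : Fin (2 * e) × Bool → ℚ, g = ∑ k, q k • zM ℚ (dd e a b k) := by
  have hd : (g.den : ℚ) ≠ 0 := Nat.cast_ne_zero.2 g.den_ne_zero
  have h1 : ∀ i j, (g.num i j : ℚ) = g.den * g i j := fun i j => by
    rw [← g.num_div_den i j, mul_div_cancel₀ _ hd]
  have h2 : zr g.num = (g.den : ℝ) • g.map (Rat.cast : ℚ → ℝ) := by
    ext i j
    have := congrArg (Rat.cast : ℚ → ℝ) (h1 i j)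
    simpa [zr] using this
  obtain ⟨d, c, c', h0, hc⟩ := he g.num (by rw [h2, Matrix.smul_mul, Matrix.mul_smul, hg])
  have h3 : (d : ℚ) * g.den ≠ 0 := mul_ne_zero (Int.cast_ne_zero.2 h0) hd
  obtain ⟨q, hq⟩ := aeval_pow hb.pos hb.deg c
  obtain ⟨q', hq'⟩ := aeval_pow hb.pos hb.deg c'
  refine ⟨fun k => ((d : ℚ) * g.den)⁻¹ * cond k.2 (q' k.1) (q k.1), ?_⟩
  simp only [mul_smul _ (_ : ℚ) (zM ℚ _), ← Finset.smul_sum]
  rw [eq_inv_smul_iff₀ h3, mul_smul, show (g.den : ℚ) • g = zM ℚ g.num from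
    Matrix.ext fun i j => (h1 i j).symm, ← zM_smul, hc, zM_add, zM_mul, hq, hq', Finset.sum_mul,
    ← Finset.sum_add_distrib, Fintype.sum_prod_type]
  refine Finset.sum_congr rfl fun i _ => ?_
  simp only [Fintype.sum_bool, dd, cond_true, cond_false, zM_mul, zM_one, mul_one, smul_mul_assoc]
  exact add_comm _ _

theorem full_col [Bs] (hb : Ok e a b) (he : EndX a b τ) {M : ℚ} (hM : M ≠ 0) :
    Full τ (M • col 1) := by
  intro P hP h
  obtain ⟨W, hW, -⟩ := hb.dual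
  obtain ⟨o, ho⟩ : ∃ o, zM ℚ (dd e a b o) = 1 := ⟨_, (congrArg _ (dd_one hb.pos)).trans (zM_one ℚ)⟩
  choose q hq using fun i j => endQ hb he (hP i j)
  have h0 : (Bs.c : ℚ) ≠ 0 := Nat.cast_ne_zero.2 Bs.c0
  have h1 : ∀ k l (j s : μ), ((W k).map (Int.castRingHom ℚ) *ᵥ zM ℚ (dd e a b l) *ᵥ col 1 j) s =
      if k = l ∧ s = j then (Bs.c : ℚ) else 0 := fun k l j s => by
    have h2 : ((W k).map (Int.castRingHom ℚ) *ᵥ zM ℚ (dd e a b l) *ᵥ col 1 j) s =
        ((W k * (dd e a b l * ((1 : MZ) * Bs.v)) : Matrix μ μ ℤ) s j : ℤ) := by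
      simp only [Matrix.mul_apply (M := W k), Matrix.mul_apply (M := dd e a b l), Int.cast_sum,
        Int.cast_mul]
      rfl
    rw [h2, Matrix.one_mul, hW]
    by_cases e : k = l <;> by_cases e' : s = j <;> simp [e, e']
  have h2 : ∀ i j k, q i j k = if k = o ∧ j = i then 1 else 0 := fun i j k => by
    have h3 := congrArg (fun x => ((W k).map (Int.castRingHom ℚ) *ᵥ x) j) (h i)
    have h4 := h1 k o i j
    rw [ho, one_mulVec] at h4
    simp only [hq, Matrix.sum_mulVec, mulVec_sum, Pi.smul_apply, smul_mulVec, mulVec_smul,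
      Finset.sum_apply, h1, h4, smul_eq_mul] at h3
    rw [Finset.sum_eq_single j (fun s _ e => by simp [e.symm]) (by simp),
      Finset.sum_eq_single k (fun s _ e => by simp [e.symm]) (by simp), if_pos ⟨rfl, rfl⟩] at h3
    split_ifs at h3 ⊢
    · exact mul_right_cancel₀ h0 (mul_left_cancel₀ hM (by linarith))
    · exact mul_right_cancel₀ h0 (mul_left_cancel₀ hM (by linarith))
  intro i j
  rw [hq, Finset.sum_eq_single o (fun k _ e => by simp [h2, e]) (by simp), h2, ho]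
  by_cases e : i = j
  · simp [e]
  · simp [e, Ne.symm e]

omit [Dim] in
theorem relIndex_le_pow {M : Type} [AddCommGroup M] [Module.Free ℤ M] [Module.Finite ℤ M]
    (A H : AddSubgroup M) {k : ℕ} (hk : k ≠ 0) (h : ∀ y ∈ H, k • y ∈ A) :
    A.relIndex H ≤ k ^ Module.finrank ℤ M := by
  obtain ⟨T, h1, h2, h3⟩ := cov H hk
  refine le_trans ?_ h1
  rw [AddSubgroup.relIndex, AddSubgroup.index, ← Nat.card_eq_finsetCard]
  refine Nat.card_le_card_of_surjective
    (fun t : T => ((⟨t.1, h2 _ t.2⟩ : H) : H ⧸ A.addSubgroupOf H)) fun x => ?_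
  obtain ⟨⟨x, hx⟩, rfl⟩ := QuotientAddGroup.mk_surjective x
  obtain ⟨t, ht, y, hy, rfl⟩ := h3 x hx
  refine ⟨⟨t, ht⟩, QuotientAddGroup.eq.2 ?_⟩
  change -t + (t + k • y) ∈ A
  rw [neg_add_cancel_left]
  exact h y hy

variable {K : IntermediateField ℚ ℂ} {r : Rep K} {U : Subgroup (ℂ ≃ₐ[K] ℂ)} {N : ℕ}

theorem AA_le (hc : COMM a b r) (hN : N ≠ 0) : AA r U N ≤ CmN a b N := by
  refine (AddSubgroup.closure_le _).2 fun R ⟨σ, _, hR⟩ => ?_
  have key : ∀ x : MZ, (∀ (l : ℕ) [Fact l.Prime], Commute (zM ℤ_[l] x) (r l σ : Matrix ν ν ℤ_[l])) →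
      ∀ i j, (N : ℤ) ∣ (R * x - x * R) i j := fun x hx i j => Kz.dvd_of_padic hN fun l _ => by
    choose S hS using hR l
    have e : zM ℤ_[l] R = (r l σ : Matrix ν ν ℤ_[l]) - (N : ℤ_[l]) • Matrix.of S :=
      Matrix.ext fun i j => by
        rw [Matrix.sub_apply, Matrix.smul_apply, of_apply, smul_eq_mul, ← hS, sub_sub_cancel]
        rfl
    have e2 : zM ℤ_[l] (R * x - x * R) =
        (N : ℤ_[l]) • (zM ℤ_[l] x * Matrix.of S - Matrix.of S * zM ℤ_[l] x) := by
      rw [sub_eq_add_neg, zM_add, zM_neg, zM_mul, zM_mul, e, sub_mul, mul_sub, (hx l).eq,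
        Matrix.smul_mul, Matrix.mul_smul, smul_sub]
      abel
    exact ⟨_, congrFun (congrFun e2 i) j⟩
  exact fun i j => ⟨key a (fun l _ => (hc l σ).1) i j, key b (fun l _ => (hc l σ).2) i j⟩

theorem relIndex_le [Bs] (hb : Ok e a b) (hc : COMM a b r) (hN : N ≠ 0) :
    (AA r U N).relIndex (CmN a b N) ≤ Bs.c ^ rk * ((AA r U N).map colZ).index := by
  have h1 : AA r U N ≤ ((AA r U N).map colZ).comap colZ ⊓ CmN a b N :=
    le_inf (AddSubgroup.le_comap_map _ _) (AA_le hc hN)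
  rw [← AddSubgroup.relIndex_mul_relIndex _ _ _ h1 inf_le_right]
  refine Nat.mul_le_mul ?_ ?_
  · refine (relIndex_le_pow _ _ Bs.c0 ?_).trans_eq rfl
    rintro R ⟨⟨S, hS, e0⟩, hR⟩
    have h2 : R - S ∈ CmN a b N := (CmN a b N).sub_mem hR (AA_le hc hN hS)
    have h3 : (R - S) * Bs.v = 0 := by
      rw [Matrix.sub_mul, sub_eq_zero]
      exact Matrix.ext fun i j => (congrFun (congrFun e0 j) i).symm
    rw [← sub_add_cancel R S, smul_add]
    refine (AA r U N).add_mem ?_ ((AA r U N).nsmul_mem hS _)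
    generalize R - S = X at h2 h3
    choose A hA using fun i j => (h2 i j).1
    choose B hB using fun i j => (h2 i j).2
    have ea : X * a = a * X + (N : ℤ) • Matrix.of A := eq_add_of_sub_eq' (Matrix.ext hA)
    have eb : X * b = b * X + (N : ℤ) • Matrix.of B := eq_add_of_sub_eq' (Matrix.ext hB)
    have h5 : ∀ {p q : MZ}, (∃ Y : MZ, X * p = p * X + (N : ℤ) • Y) →
        (∃ Y : MZ, X * q = q * X + (N : ℤ) • Y) → ∃ Y : MZ, X * (p * q) = p * q * X + (N : ℤ) • Y :=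
      fun {p q} ⟨Y, hY⟩ ⟨Y', hY'⟩ => ⟨p * Y' + Y * q, by
        rw [← mul_assoc, hY, add_mul, mul_assoc p, hY', mul_add, smul_add, mul_smul_comm,
          smul_mul_assoc, mul_assoc, add_assoc]⟩
    have h6 : ∀ i : ℕ, ∃ Y : MZ, X * a ^ i = a ^ i * X + (N : ℤ) • Y := fun i => by
      induction i with
      | zero => exact ⟨0, by simp⟩
      | succ i ih => rw [pow_succ]; exact h5 ih ⟨_, ea⟩
    have h4 : ∀ k, ∃ Y : Matrix ν μ ℤ, X * (dd e a b k * Bs.v) = (N : ℤ) • Y := fun k => by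
      obtain ⟨Y, hY⟩ := h5 (q := cond k.2 b 1) (h6 k.1) (by
        cases k.2
        exacts [⟨0, by simp⟩, ⟨_, eb⟩])
      refine ⟨Y * Bs.v, ?_⟩
      rw [← Matrix.mul_assoc, dd, hY, Matrix.add_mul, Matrix.mul_assoc, h3, Matrix.mul_zero,
        zero_add, Matrix.smul_mul]
    obtain ⟨W, -, hW⟩ := hb.dual
    choose Y hY using h4
    rw [← natCast_zsmul, ← Matrix.mul_one X, ← Matrix.mul_smul, ← hW, Finset.mul_sum]
    refine sum_mem fun k _ => ?_
    rw [← Matrix.mul_assoc, hY, Matrix.smul_mul]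
    exact dual_smul_mem _
  · have := AZ_finite (r := r) (U := U) hN
    rw [AddSubgroup.inf_relIndex_right, AddSubgroup.relIndex_comap]
    exact AddSubgroup.relIndex_le_of_le_right le_top (by
      rw [AddSubgroup.relIndex_top_right]
      exact AddSubgroup.index_ne_zero_of_finite) |>.trans_eq (AddSubgroup.relIndex_top_right _)

end MG.F
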