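import Pool.Agent.Lib.MP_33b3f9_ag.MG.F.Defs

/-!
Rational complex subspaces of tuples.
-/

set_option autoImplicit false

noncomputable section

namespace MG.F

open Matrix Filter M4 M4.F

variable [Dim] {κ : Type} [Fintype κ] [DecidableEq κ] {τ : Mat}

theorem finb_sym {A : Matrix ι ι ℝ} (h : Aᵀ = A) (u v : ι → ℝ) :
    u ⬝ᵥ A *ᵥ v = (A *ᵥ u) ⬝ᵥ v := by
  rw [dotProduct_mulVec, ← vecMul_transpose, h]

theorem finb_re (hτ : InH τ) : (τ.map Complex.re)ᵀ = τ.map Complex.re := by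
  rw [← transpose_map, hτ.1.eq]

theorem finb_im (hτ : InH τ) : (τ.map Complex.im)ᵀ = τ.map Complex.im := by
  rw [← transpose_map, hτ.1.eq]

theorem finb_E (x y : ν → ℝ) :
    E x y = (x ∘ Sum.inl) ⬝ᵥ (y ∘ Sum.inr) - (x ∘ Sum.inr) ⬝ᵥ (y ∘ Sum.inl) := by
  simp [E, dotProduct]

theorem finb_form (hτ : InH τ) (x y : ν → ℝ) : E (cst τ *ᵥ x) y =
    (y ∘ Sum.inl) ⬝ᵥ τ.map Complex.im *ᵥ (x ∘ Sum.inl) +
      (τ.map Complex.re *ᵥ (y ∘ Sum.inl) + y ∘ Sum.inr) ⬝ᵥ
        (τ.map Complex.im)⁻¹ *ᵥ (τ.map Complex.re *ᵥ (x ∘ Sum.inl) + x ∘ Sum.inr) := by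
  rw [finb_E, dotProduct_comm, dotProduct_comm _ (y ∘ Sum.inl), cst, fromBlocks_mulVec,
    Sum.elim_comp_inl, Sum.elim_comp_inr]
  simp only [neg_mulVec, add_mulVec, ← mulVec_mulVec, dotProduct_add, dotProduct_neg,
    finb_sym (finb_re hτ), mulVec_add, add_dotProduct]
  ring

theorem finb_swap (hτ : InH τ) (x y : ν → ℝ) : E (cst τ *ᵥ x) y = E (cst τ *ᵥ y) x := by
  have h : ((τ.map Complex.im)⁻¹)ᵀ = (τ.map Complex.im)⁻¹ := by
    rw [transpose_nonsing_inv, finb_im hτ]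
  rw [finb_form hτ, finb_form hτ, finb_sym (finb_im hτ), finb_sym h, dotProduct_comm,
    dotProduct_comm (_ *ᵥ (_ + _))]

theorem cst_sim (hτ : InH τ) (x y : ν → ℝ) : E (cst τ *ᵥ x) (cst τ *ᵥ y) = E x y := by
  have hd : IsUnit (τ.map Complex.im).det := hτ.2.det_pos.ne'.isUnit
  rw [finb_form hτ, finb_E, cst, fromBlocks_mulVec, Sum.elim_comp_inl, Sum.elim_comp_inr]
  have h : ((τ.map Complex.im)⁻¹)ᵀ = (τ.map Complex.im)⁻¹ := by
    rw [transpose_nonsing_inv, finb_im hτ]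
  have e1 : ∀ u, τ.map Complex.im *ᵥ (τ.map Complex.im)⁻¹ *ᵥ u = u := fun u => by
    rw [mulVec_mulVec, mul_nonsing_inv _ hd, one_mulVec]
  have e2 : ∀ u, (τ.map Complex.im)⁻¹ *ᵥ τ.map Complex.im *ᵥ u = u := fun u => by
    rw [mulVec_mulVec, nonsing_inv_mul _ hd, one_mulVec]
  rw [finb_sym (finb_im hτ), finb_sym h]
  simp only [neg_mulVec, add_mulVec, ← mulVec_mulVec, mulVec_add, mulVec_neg, e1, e2,
    add_dotProduct, neg_dotProduct, dotProduct_add, finb_sym (finb_re hτ) (y ∘ Sum.inl)]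
  rw [dotProduct_comm (x ∘ Sum.inl), dotProduct_comm (x ∘ Sum.inr)]
  ring

theorem cst_pos (hτ : InH τ) {x : ν → ℝ} (hx : x ≠ 0) : 0 < E (cst τ *ᵥ x) x := by
  rw [finb_form hτ]
  by_cases h : x ∘ Sum.inl = 0
  · have h2 : x ∘ Sum.inr ≠ 0 := fun h2 => hx (funext fun i => by
      rcases i with i | i
      exacts [congrFun h i, congrFun h2 i])
    rw [h, zero_dotProduct, mulVec_zero, zero_add, zero_add]
    exact hτ.2.inv.dotProduct_mulVec_pos h2
  · exact add_pos_of_pos_of_nonneg (hτ.2.dotProduct_mulVec_pos h)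
      (hτ.2.inv.posSemidef.dotProduct_mulVec_nonneg _)

/-- The form `EK` as a bilinear map. -/
def finbB (R : Type) [CommRing R] (κ : Type) [Fintype κ] : LinearMap.BilinForm R (κ → ν → R) :=
  LinearMap.mk₂ R EK
    (fun x y z => by simp only [EK, Pi.add_apply, Kz.Ef_add_left, Finset.sum_add_distrib])
    (fun c x y => by simp only [EK, Pi.smul_apply, Kz.Ef_smul_left, Finset.mul_sum, smul_eq_mul])
    (fun x y z => by simp only [EK, Pi.add_apply, Kz.Ef_add_right, Finset.sum_add_distrib])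
    (fun c x y => by simp only [EK, Pi.smul_apply, Kz.Ef_smul_right, Finset.mul_sum, smul_eq_mul])

omit [DecidableEq κ] in
theorem finb_alt {R : Type} [CommRing R] (x y : κ → ν → R) : finbB R κ x y = -finbB R κ y x := by
  change EK x y = -EK y x
  rw [EK, EK, ← Finset.sum_neg_distrib]
  exact Finset.sum_congr rfl fun i _ => Kz.Ef_swap _ _

omit [DecidableEq κ] in
theorem finb_cr (x y : VQ κ) : finbB ℝ κ (cr x) (cr y) = (finbB ℚ κ x y : ℚ) := by
  change EK _ _ = ((EK x y : ℚ) : ℝ)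
  rw [EK, EK, Rat.cast_sum]
  exact Finset.sum_congr rfl fun i _ => Kz.Ef_map (Rat.castHom ℝ) _ _

omit [DecidableEq κ] in
theorem finb_jv (hτ : InH τ) (x y : VR κ) : finbB ℝ κ (jv τ x) y = finbB ℝ κ (jv τ y) x :=
  Finset.sum_congr rfl fun _ _ => finb_swap hτ _ _

omit [DecidableEq κ] in
theorem finb_nd (hτ : InH τ) {x : VR κ} (h : finbB ℝ κ (jv τ x) x = 0) : x = 0 := by
  have h1 : ∀ i, 0 ≤ E (cst τ *ᵥ x i) (x i) := fun i => by
    by_cases h0 : x i = 0
    · rw [h0, Kz.E_eq, Kz.Ef_zero_right]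
    · exact (cst_pos hτ h0).le
  funext i
  by_contra h0
  exact (cst_pos hτ h0).ne'
    ((Finset.sum_eq_zero_iff_of_nonneg fun i _ => h1 i).1 h i (Finset.mem_univ i))

/-- The projector along the orthogonal for `EK` is rational and commutes with `jv`. -/
theorem exists_proj (hτ : InH τ) (T : Submodule ℝ (VR κ))
    (hj : ∀ x ∈ T, jv τ x ∈ T) (hq : T ≤ Submodule.span ℝ {x | x ∈ T ∧ ∃ y : VQ κ, x = cr y}) :
    ∃ P : κ → κ → Matrix ν ν ℚ, (∀ i j, EndQ τ (P i j)) ∧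
      ∀ x : VR κ, x ∈ T ↔ ∀ i, ∑ j, (P i j).map (Rat.cast : ℚ → ℝ) *ᵥ x j = x i := by
  have h0 : ∀ y : VQ κ, (∀ w : VQ κ, cr w ∈ T → finbB ℚ κ w y = 0) →
      ∀ t ∈ T, finbB ℝ κ t (cr y) = 0 := fun y hy t ht => by
    refine (Submodule.span_le (p := LinearMap.ker ((finbB ℝ κ).flip (cr y)))).2 ?_ (hq ht)
    rintro _ ⟨hw, w, rfl⟩
    change finbB ℝ κ (cr w) (cr y) = 0
    rw [finb_cr, hy w hw, Rat.cast_zero]
  have hu : ∀ x ∈ T, (∀ t ∈ T, finbB ℝ κ t x = 0) → x = 0 := fun x hx h =>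
    finb_nd hτ (h _ (hj x hx))
  let S : Submodule ℚ (VQ κ) :=
    { carrier := {y | cr y ∈ T}
      zero_mem' := by
        have : cr (0 : VQ κ) = 0 := by funext i j; simp [cr]
        change cr (0 : VQ κ) ∈ T
        rw [this]
        exact T.zero_mem
      add_mem' := fun {a b} ha hb => by
        change cr (a + b) ∈ T
        rw [cr_add]
        exact T.add_mem ha hb
      smul_mem' := fun c a ha => by
        change cr (c • a) ∈ T
        rw [cr_smul]
        exact T.smul_mem _ ha }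
  have hc : IsCompl S ((finbB ℚ κ).orthogonal S) := by
    refine (LinearMap.BilinForm.isCompl_orthogonal_iff_disjoint fun x y h => ?_).2
      (Submodule.disjoint_def.2 fun y hy hy' => ?_)
    · rw [finb_alt, h, neg_zero]
    · funext i j
      exact Rat.cast_eq_zero.1 (congrFun (congrFun (hu _ hy (h0 y hy')) i) j)
  have hz : ∀ y : VQ κ, ∃ z : VQ κ, cr z ∈ T ∧ ∀ t ∈ T, finbB ℝ κ t (cr y - cr z) = 0 := fun y => by
    obtain ⟨z, hz, w, hw, rfl⟩ := Submodule.mem_sup.1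
      (show y ∈ S ⊔ (finbB ℚ κ).orthogonal S from hc.sup_eq_top ▸ Submodule.mem_top)
    refine ⟨z, hz, ?_⟩
    rw [cr_add, add_sub_cancel_left]
    exact h0 w hw
  choose z hz1 hz2 using fun j b => hz (Pi.single j (Pi.single b 1))
  obtain ⟨p, hp⟩ : ∃ p : VR κ → VR κ, ∀ x, p x = ∑ j, ∑ b, x j b • cr (z j b) := ⟨_, fun _ => rfl⟩
  have p1 : ∀ x, p x ∈ T := fun x => by
    rw [hp]
    exact T.sum_mem fun j _ => T.sum_mem fun b _ => T.smul_mem _ (hz1 j b)
  have p2 : ∀ x, ∀ t ∈ T, finbB ℝ κ t (x - p x) = 0 := fun x t ht => by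
    have e : x = ∑ j, ∑ b, x j b • cr (Pi.single j (Pi.single b 1)) := by
      funext i a
      simp only [Finset.sum_apply, Pi.smul_apply, cr, smul_eq_mul]
      rw [Finset.sum_eq_single i (fun j _ h => by simp [h.symm]) (by simp),
        Finset.sum_eq_single a (fun b _ h => by simp [h.symm]) (by simp)]
      simp
    rw [hp]
    nth_rewrite 1 [e]
    simp only [← Finset.sum_sub_distrib, ← smul_sub, map_sum, map_smul, hz2 _ _ t ht, smul_zero,
      Finset.sum_const_zero]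
  have p3 : ∀ x, p (jv τ x) = jv τ (p x) := fun x => by
    refine sub_eq_zero.1 (hu _ (T.sub_mem (p1 _) (hj _ (p1 _))) fun t ht => ?_)
    have e : p (jv τ x) - jv τ (p x) = jv τ (x - p x) - (jv τ x - p (jv τ x)) := by
      funext i
      simp only [jv, Pi.sub_apply, mulVec_sub]
      abel
    rw [e, map_sub, p2 _ t ht, finb_alt, finb_jv hτ, p2 _ _ (hj t ht), neg_zero, sub_zero]
  have p4 : ∀ (x : VR κ) i, p x i =
      ∑ j, (Matrix.of fun a b => z j b i a).map (Rat.cast : ℚ → ℝ) *ᵥ x j := fun x i => by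
    funext a
    simp [hp, cr, mulVec, dotProduct, mul_comm]
  have p5 : ∀ i j (v : ν → ℝ), p (Pi.single j v) i =
      (Matrix.of fun a b => z j b i a).map (Rat.cast : ℚ → ℝ) *ᵥ v := fun i j v => by
    rw [p4, Finset.sum_eq_single j (fun k _ h => by simp [h]) (by simp), Pi.single_eq_same]
  refine ⟨fun i j => Matrix.of fun a b => z j b i a, fun i j => ?_,
    fun x => ⟨fun hx i => ?_, fun h => ?_⟩⟩
  · refine ext_of_mulVec_single fun c => ?_
    rw [← mulVec_mulVec, ← mulVec_mulVec, ← p5, ← p5]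
    refine Eq.trans (congrArg (fun u => p u i) (funext fun k => ?_)) (congrFun (p3 _) i)
    by_cases h : k = j
    · simp [jv, h]
    · simp [jv, h]
  · exact (p4 x i).symm.trans (congrFun (sub_eq_zero.1 (hu _ (T.sub_mem hx (p1 x)) (p2 x))) i).symm
  · have e : x = p x := funext fun i => (h i).symm.trans (p4 x i).symm
    exact e ▸ p1 x

end MG.F
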