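import Pool.Agent.Lib.MP_33b3f9_ag.MG.F.Defs

/-!
The Schwarz lemma along a line.
-/

set_option autoImplicit false

noncomputable section

namespace MG.F

open Matrix Filter M4 M4.F

variable [Dim] {κ : Type} [Fintype κ] {τ : Mat}

theorem Lin.small {c B : ℝ} {s : VR κ → ℂ} (hs : Lin τ c s) (hb : ∀ x, ‖s x‖ ≤ B) {x v : VR κ}
    (hz : ∀ k : ℤ, s (x + (k : ℝ) • v) = 0) {n : ℕ} (hn : 16 * c * ‖v‖ ^ 2 * n ≤ 1) {t : ℝ}
    (h0 : 0 ≤ t) (h1 : t ≤ 1) : ‖s (x + t • v)‖ ≤ B * Real.exp (2 - n) := by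
  rcases Nat.eq_zero_or_pos n with rfl | hn0
  · exact (hb _).trans (le_mul_of_one_le_right ((norm_nonneg _).trans (hb x))
      (Real.one_le_exp (by simp)))
  obtain ⟨ψ, η, hψ, hη, hc, h⟩ := hs.2 x v
  have h2 := schwarz_int hψ (B := B) (fun ζ => by
    rw [h]
    exact mul_le_mul_of_nonneg_right (hb _) (Real.exp_pos _).le) (fun k => by
    rw [← norm_eq_zero, h]
    simp [hz k]) hn0
    (le_trans (mul_le_mul_of_nonneg_right (by linarith) (Nat.cast_nonneg n)) hn) h0 h1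
  rw [h, Complex.ofReal_re, Complex.ofReal_im, zero_smul, add_zero] at h2
  exact (le_mul_of_one_le_right (norm_nonneg _) (Real.one_le_exp (by positivity))).trans h2

/-- The identity theorem on a line. -/
theorem Lin.cplx {c : ℝ} {s : VR κ → ℂ} (hs : Lin τ c s) {x v : VR κ}
    (hz : ∀ t : ℝ, s (x + t • v) = 0) (t : ℝ) : s (x + t • jv τ v) = 0 := by
  obtain ⟨ψ, η, hψ, -, -, h⟩ := hs.2 x v
  have h1 := entire_eq_zero_of_real (ι := Unit) (F := fun z => ψ (z ())) (by fun_prop) 0 fun b => by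
    rw [← norm_eq_zero, h]
    simp [hz (b ())]
  have h2 := h (t * Complex.I)
  rw [show ψ (t * Complex.I) = 0 from congrFun h1 fun _ => t * Complex.I] at h2
  simpa using h2

end MG.F
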