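import Pool.Agent.Lib.MP_33b3f9_ag.MG.F.Gs
import Pool.Agent.Lib.MP_33b3f9_ag.MG.F.Schw
import Pool.Agent.Lib.MP_33b3f9_ag.M4.F.Det

/-!
The analytic bound for minors.
-/

set_option autoImplicit false

namespace MG.F

open Matrix Module M4 M4.F

variable [Dim] [Bs] {τ : Mat}

theorem an_norm (n : ℕ) : ‖cr (qq n 1)‖ ^ 2 = ‖cr (col 1)‖ ^ 2 * ((n : ℝ) ^ 2)⁻¹ := by
  rw [qq_apply, cr_smul, norm_smul, mul_pow, mul_comm]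
  simp

theorem an_half (n : ℕ) : cr (qq (2 * n) 1) = (1 / 2 : ℝ) • cr (qq n 1) := by
  rw [qq_apply, qq_apply, cr_smul, cr_smul, smul_smul]
  congr 1
  push_cast
  rw [mul_inv, one_div]

/-- `lin_of_holK`, `A ≥ 48 c`. For `ρ = n ^ 2 / A = 0` there is nothing to prove; otherwise
`Lin.small` with `v = cr (qq n 1)`, `‖v‖ ≤ 1 / n`, `3 ρ` zeros, `t = 1 / 2`,
`exp (2 - 3 ρ) ≤ (1 / 2) ^ ρ`. -/
theorem small (hτ : InH τ) : ∃ A : ℕ, 0 < A ∧ ∀ f ∈ HolK (κ := μ) τ 1, ∀ B : ℝ, (∀ x, ‖f x‖ ≤ B) →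
    ∀ n : ℕ, n ≠ 0 → ∀ x : VQ μ, (∀ k : ℤ, f (cr (x + k • qq n 1)) = 0) →
      ‖f (cr (x + qq (2 * n) 1))‖ ≤ B * (1 / 2) ^ (n ^ 2 / A) := by
  obtain ⟨c, hc, hl⟩ := lin_of_holK hτ μ
  obtain ⟨d, hd⟩ : ∃ d, d = c * ‖cr (col 1)‖ ^ 2 := ⟨_, rfl⟩
  refine ⟨⌈48 * d⌉₊ + 1, Nat.succ_pos _, fun f hf B hb n hn x hz => ?_⟩
  rcases Nat.eq_zero_or_pos (n ^ 2 / (⌈48 * d⌉₊ + 1)) with h | h
  · rw [h, pow_zero, mul_one]
    exact hb _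
  have hB : 0 ≤ B := (norm_nonneg _).trans (hb 0)
  have h1 : n ^ 2 / (⌈48 * d⌉₊ + 1) * (⌈48 * d⌉₊ + 1) ≤ n ^ 2 := Nat.div_mul_le_self _ _
  generalize n ^ 2 / (⌈48 * d⌉₊ + 1) = m at h h1 ⊢
  have h2 : (m : ℝ) * ((⌈48 * d⌉₊ : ℝ) + 1) ≤ (n : ℝ) ^ 2 := by exact_mod_cast h1
  have h3 : 48 * d ≤ (⌈48 * d⌉₊ : ℝ) := Nat.le_ceil _
  have hn' : (0 : ℝ) < n := by exact_mod_cast Nat.pos_of_ne_zero hn
  have hm : (0 : ℝ) ≤ m := Nat.cast_nonneg _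
  have h5 : 48 * d * m ≤ (n : ℝ) ^ 2 := by nlinarith
  have h6 : 16 * (c * 1) * ‖cr (qq n 1)‖ ^ 2 * (3 * m : ℕ) ≤ 1 := by
    have h7 := mul_le_mul_of_nonneg_right h5 (show (0 : ℝ) ≤ ((n : ℝ) ^ 2)⁻¹ by positivity)
    rw [mul_inv_cancel₀ (by positivity), hd] at h7
    rw [an_norm]
    push_cast
    linarith
  have h8 := Lin.small (hl 1 zero_le_one f hf) hb (x := cr x) (v := cr (qq n 1)) (fun k => by
    have := hz k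
    rwa [cr_add, ← Int.cast_smul_eq_zsmul ℚ, cr_smul, Rat.cast_intCast] at this) h6
    (t := 1 / 2) (by norm_num) (by norm_num)
  rw [cr_add, an_half]
  exact h8.trans (mul_le_mul_of_nonneg_left (an_exp h) hB)

/-- `exists_ker` gives `Q` of dimension at least `s`; for `k ∈ Q` the function
`f = ∑ j, k j • Tw (c j)` is in `HolK τ 1` (`GS_le`), bounded by `B ∑ ‖k j‖` and vanishes on `S`;
`small`, `det_le`. -/
theorem minor_le (hτ : InH τ) : ∃ A : ℕ, 0 < A ∧ ∀ (t : ℂ) (B : ℝ), 0 ≤ B →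
    (∀ c x : VR μ, ‖Tw τ t c x‖ ≤ B) → ∀ Λ : AddSubgroup (VQ μ), Module.Finite ℂ (GS τ t Λ) →
    ∀ n : ℕ, n ≠ 0 → ∀ S : Set (VQ μ), (∀ x ∈ S, ∀ k : ℤ, x + k • qq n 1 ∈ S) →
    ∀ (p s : ℕ) (c x : Fin p → VQ μ), (∀ j, c j ∈ dual Λ) → (∀ i, x i ∈ ext S (qq (2 * n) 1)) →
    s + finrank ℂ (GS τ t Λ) ≤ p + kk τ t Λ S →
      ‖minor τ t c x‖ ≤ ((p : ℝ) ^ 2 * B) ^ p * (1 / 2) ^ (n ^ 2 / A * s) := by
  obtain ⟨A, hA, hsm⟩ := small hτ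
  refine ⟨A, hA, fun t B hB hT Λ hfin n hn S hS p s c x hc hx hs => ?_⟩
  obtain ⟨Q, hQ, hk⟩ := exists_ker (GS τ t Λ) (cr '' S) (fun j => Tw τ t (cr (c j)))
    fun j => Submodule.subset_span ⟨c j, hc j, rfl⟩
  rw [pow_mul]
  refine det_le (Matrix.of fun i j => Tw τ t (cr (c j)) (cr (x i))) hB (by positivity)
    (pow_le_one₀ (by norm_num) (by norm_num)) (fun i j => hT _ _) Q ?_ fun k hkQ i => ?_
  · unfold kk at hs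
    omega
  have hf : (∑ j, k j • Tw τ t (cr (c j))) ∈ HolK (κ := μ) τ 1 :=
    Submodule.sum_mem _ fun j _ => Submodule.smul_mem _ _ (tw_hol hτ t _)
  have he : ∀ y, (∑ j, k j • Tw τ t (cr (c j))) y = ∑ j, k j * Tw τ t (cr (c j)) y := fun y => by
    rw [Finset.sum_apply]
    rfl
  have hb : ∀ y, ‖(∑ j, k j • Tw τ t (cr (c j))) y‖ ≤ B * ∑ j, ‖k j‖ := fun y => by
    rw [he, Finset.mul_sum]
    refine (norm_sum_le _ _).trans (Finset.sum_le_sum fun j _ => ?_)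
    rw [norm_mul, mul_comm]
    exact mul_le_mul_of_nonneg_right (hT _ _) (norm_nonneg _)
  change ‖∑ j, k j * Tw τ t (cr (c j)) (cr (x i))‖ ≤ _
  rcases hx i with h | ⟨y, hy, h⟩
  · rw [hk k hkQ _ ⟨_, h, rfl⟩, norm_zero]
    positivity
  · rw [h, ← he]
    exact hsm _ hf _ hb n hn y fun m => (he _).trans (hk k hkQ _ ⟨_, hS y hy m, rfl⟩)

end MG.F
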