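import Pool.Agent.Lib.MP_33b3f9_ag.MG.F.Defs

/-!
Arithmetic of the values.
-/

set_option autoImplicit false

noncomputable section

namespace MG.F

open Matrix Filter M4 M4.F

variable [Dim] {κ : Type} [Fintype κ] {K : IntermediateField ℚ ℂ} {τ : Mat} {r : Rep K}

theorem ari_den0 (h : AV τ K r) (e : Bits) :
    ∃ D : ℤ, D ≠ 0 ∧ ∀ k, IsIntegral ℤ (D * (XX τ k 0 / th2 τ e)) := by
  classical
  have := h.fin
  have : Algebra.IsAlgebraic ℤ K := (IsFractionRing.comap_isAlgebraic_iff (K := ℚ)).2 inferInstance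
  obtain ⟨D, hD, H⟩ := Algebra.IsAlgebraic.exists_integral_multiples ℤ
    (Finset.univ.image fun e' : Bits => (⟨_, Kz.null_mem h e (bz e')⟩ : K))
  refine ⟨D, hD, fun k => ?_⟩
  obtain ⟨e', n, rfl⟩ := Kz.exists_bits k
  have h1 := (H _ (Finset.mem_image_of_mem _ (Finset.mem_univ e'))).map
    (K.val.toRingHom.toIntAlgHom)
  rw [Kz.XX_add_two h.inH, mul_div_assoc, mul_left_comm]
  refine IsIntegral.mul (IsIntegral.of_pow (n := 4) (by norm_num) ?_) (by simpa using h1)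
  rw [mul_pow, pow_mul (chi n) 2 2, Kz.chi_sq, ← zpow_natCast (Complex.I ^ _), ← _root_.zpow_mul,
    mul_comm (Kz.Ef _ _), _root_.zpow_mul, zpow_natCast, Complex.I_pow_four]
  simpa using isIntegral_one

theorem ari_arch (h : AV τ K r) (e : Bits) :
    ∃ C : ℝ, ∀ (φ : ℂ →+* ℂ) k, ‖φ (XX τ k 0 / th2 τ e)‖ ≤ C := by
  have := h.fin
  have : NumberField K := ⟨⟩
  obtain ⟨C, hC⟩ := (Set.finite_range fun p : (K →+* ℂ) × Bits =>
    ‖p.1 ⟨_, Kz.null_mem h e (bz p.2)⟩‖).bddAbove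
  refine ⟨C, fun φ k => ?_⟩
  obtain ⟨e', n, rfl⟩ := Kz.exists_bits k
  have h1 : ‖φ (chi n)‖₊ = 1 := Kz.w_chi (nnnormHom.comp φ.toMonoidWithZeroHom) n
  have h2 : ‖φ (Complex.I ^ Kz.Ef (bz e') n)‖₊ = 1 :=
    Kz.w_I (nnnormHom.comp φ.toMonoidWithZeroHom) _
  rw [Kz.XX_add_two h.inH, mul_div_assoc, map_mul, map_mul, norm_mul, norm_mul, ← coe_nnnorm, h1,
    ← coe_nnnorm, h2, NNReal.coe_one, one_mul, one_mul]
  exact hC ⟨(φ.comp K.val.toRingHom, e'), rfl⟩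

theorem ari_den (h : AV τ K r) (e : Bits) :
    ∃ D : ℕ, D ≠ 0 ∧ ∀ k, IsIntegral ℤ (D * (XX τ k 0 / th2 τ e)) := by
  obtain ⟨D, h0, hD⟩ := ari_den0 h e
  obtain ⟨n, rfl | rfl⟩ := D.eq_nat_or_neg
  · exact ⟨n, by simpa using h0, fun k => by simpa using hD k⟩
  · exact ⟨n, by simpa using h0, fun k => by simpa using (hD k).neg⟩

theorem ari_rq {M : ℕ} (hM : M ≠ 0) {x : VQ κ} {n : κ → ν → ℤ} (h : (M : ℚ) • x = zq n)
    (z : κ → ℤ) {N : ℕ} {q : κ → ℚ} (hN : N ≠ 0) (hq : ∀ i, (N : ℚ) * q i = z i) :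
    ∑ i, (q i : ℝ) • cr x i = Kz.rq (N * M) (∑ i, z i • n i) := by
  have h1 : ((N * M : ℕ) : ℝ) ≠ 0 := Nat.cast_ne_zero.2 (mul_ne_zero hN hM)
  rw [Kz.rq, eq_inv_smul_iff₀ h1]
  funext j
  simp only [Pi.smul_apply, Finset.sum_apply, smul_eq_mul, rz, cr, Finset.mul_sum, Int.cast_sum]
  refine Finset.sum_congr rfl fun i _ => ?_
  have h2 : (M : ℚ) * x i j = n i j := congrFun (congrFun h i) j
  have h3 : ((N * M : ℕ) : ℚ) * (q i * x i j) = (z i * n i j : ℤ) := by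
    rw [Int.cast_mul, ← h2, ← hq, Nat.cast_mul]
    ring
  exact_mod_cast h3

theorem ari_bas (z : κ → ℚ) (x : VQ κ) : ∃ (M : ℕ) (a : ν → ℤ), M ≠ 0 ∧
    ∑ i, (z i : ℝ) • cr x i = Kz.rq M a ∧
      ∀ R : MZ, ∑ i, (z i : ℝ) • cr (mv R x) i = Kz.rq M (R *ᵥ a) := by
  obtain ⟨M, n, hM, h1⟩ := exists_den x
  obtain ⟨N, m, hN, h2⟩ := exists_den fun i (_ : ν) => z i
  obtain ⟨o⟩ : Nonempty ι := inferInstance
  have h3 : ∀ i, (N : ℚ) * z i = m i (Sum.inl o) := fun i => congrFun (congrFun h2 i) (Sum.inl o)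
  refine ⟨N * M, _, mul_ne_zero hN hM, ari_rq hM h1 _ hN h3, fun R => ?_⟩
  rw [ari_rq hM (by rw [← mv_smul, h1, mv_zq]) _ hN h3, mulVec_sum]
  simp only [mulVec_smul]

theorem ari_EK {M M' : ℕ} (hM : M ≠ 0) (hM' : M' ≠ 0) {x y : VQ κ} {n n' : κ → ν → ℤ}
    (h : (M : ℚ) • x = zq n) (h' : (M' : ℚ) • y = zq n') :
    ee (EK x y : ℚ) = ∏ i, ee ((Kz.Ef (n i) (n' i) : ℤ) / (M * M' : ℕ)) := by
  have h1 : ((M * M' : ℕ) : ℂ) ≠ 0 := Nat.cast_ne_zero.2 (mul_ne_zero hM hM')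
  rw [← ee_sum, EK, Rat.cast_sum]
  refine congrArg ee (Finset.sum_congr rfl fun i _ => ?_)
  have h2 : Kz.Ef (zq n i) (zq n' i) = (Kz.Ef (n i) (n' i) : ℤ) :=
    Kz.Ef_map (Int.castRingHom ℚ) (n i) (n' i)
  rw [← h, ← h', Pi.smul_apply, Pi.smul_apply, Kz.Ef_smul_left, Kz.Ef_smul_right] at h2
  rw [eq_div_iff h1, ← Rat.cast_intCast (α := ℂ), ← h2]
  push_cast
  ring

theorem ari_smul (q : ℚ) (x y : VQ κ) : q * EK x y = EK (q • x) y := by
  simp only [EK, Finset.mul_sum, Pi.smul_apply, Kz.Ef_smul_left]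

theorem ari_tw (t : ℂ) (c x : VR κ) : Tw τ t c x = ee (1 / 2 * EK c x : ℝ) *
    ∏ i, bas τ t 0 (fun _ => 1 / 2) fun b => cond b (c i) (x i) := by
  rw [Tw, EK, Finset.mul_sum, Complex.ofReal_sum, ee_sum, ← Finset.prod_mul_distrib]
  refine Finset.prod_congr rfl fun i _ => ?_
  have h1 : (2 : ℝ) • ∑ b : Bool, ((1 / 2 : ℚ) : ℝ) • cond b (c i) (x i) + hf 0 = x i + c i := by
    rw [Fintype.sum_bool, hf, Kz.rz_zero]
    push_cast
    simp only [cond_true, cond_false]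
    module
  rw [bas, Kz.XX_def, h1, Kz.rz_zero, Kz.Ef_zero_left, U, Kz.E_eq, mul_div_assoc]
  push_cast
  rw [zero_div, ee_zero, one_mul, one_mul, div_mul_eq_mul_div, one_mul]

theorem ari_twq (t : ℂ) (c x : VQ κ) : Tw τ t (cr c) (cr x) = ee (1 / 2 * EK c x : ℚ) *
    ∏ i, bas τ t 0 (fun _ => 1 / 2) (cr fun b => cond b (c i) (x i)) := by
  have h1 : EK (cr c) (cr x) = (EK c x : ℚ) := by
    rw [EK, EK, Rat.cast_sum]
    exact Finset.sum_congr rfl fun i _ => Kz.Ef_map (Rat.castHom ℝ) (c i) (x i)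
  rw [ari_tw, h1]
  refine congrArg₂ _ (congrArg ee ?_)
    (Finset.prod_congr rfl fun i _ => congrArg _ (funext fun b => by cases b <;> rfl))
  push_cast
  rfl

theorem exists_base (h : AV τ K r) : ∃ (t : ℂ) (D : ℕ) (B : ℝ), Base τ r t D B := by
  obtain ⟨e, he⟩ := exists_null_ne_zero h.inH
  change th2 τ e ≠ 0 at he
  obtain ⟨D, hD0, hD⟩ := ari_den h e
  obtain ⟨C, hC⟩ := ari_arch h e
  obtain ⟨C', hC'⟩ := Gam.bounded (Th_mem h.inH)
  refine ⟨th2 τ e, 2 ^ Fintype.card ι * D, max 1 (max (2 ^ Fintype.card ι * C) (C' / ‖th2 τ e‖)),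
    he, by positivity, le_max_left _ _,
    fun κ _ k z => ⟨fun x => ?_, fun φ x => ?_, fun x => ?_, fun σ _ x => ?_⟩⟩
  · obtain ⟨M, a, hM, h1, -⟩ := ari_bas z x
    have h2 := Kz.XX_int h.inH (c := D / th2 τ e) (fun k => by
      rw [div_mul_eq_mul_div, mul_div_assoc]; exact hD k) hM k a
    rw [bas, h1]
    refine (congrArg _ ?_).mp h2
    push_cast
    ring
  · obtain ⟨M, a, hM, h1, -⟩ := ari_bas z x
    have ht : 0 < ‖(φ : ℂ →+* ℂ) (th2 τ e)‖ := by simpa using he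
    have h2 := Kz.bound_emb (φ : ℂ →+* ℂ) h.inH (N₀ := C * ‖(φ : ℂ →+* ℂ) (th2 τ e)‖) (fun k => by
      rw [← div_le_iff₀ ht, ← norm_div, ← map_div₀]; exact hC φ k) hM k a
    rw [← mul_assoc, ← div_le_iff₀ ht, ← norm_div, ← map_div₀] at h2
    rw [bas, h1]
    exact le_max_of_le_right (le_max_of_le_left h2)
  · rw [bas, norm_div, norm_XX]
    exact le_max_of_le_right (le_max_of_le_right
      (div_le_div_of_nonneg_right (hC' _) (norm_nonneg _)))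
  · obtain ⟨M, a, hM, h1, h2⟩ := ari_bas z x
    refine ev_lf.2 ⟨4 * M * M, by positivity, fun R hR => ?_⟩
    rw [bas, bas, h1, h2]
    exact Kz.exact_gal h he hM hR k a

theorem ee_gal (h : AV τ K r) (σ : ℂ ≃ₐ[K] ℂ) (q : ℚ) (x y : VQ κ) : ∀ᶠ R in lf r σ,
    σ (ee ((q * EK x y : ℚ) : ℂ)) = ee ((q * EK (mv R x) (mv R y) : ℚ) : ℂ) := by
  obtain ⟨M, n, hM, h1⟩ := exists_den (q • x)
  obtain ⟨M', n', hM', h2⟩ := exists_den y
  refine ev_lf.2 ⟨4 * (2 * (M * M')) * (2 * (M * M')), by positivity, fun R hR => ?_⟩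
  rw [ari_smul, ari_smul, ← mv_smul, ari_EK hM hM' h1 h2, map_prod,
    ari_EK hM hM' (by rw [← mv_smul, h1, mv_zq]) (by rw [← mv_smul, h2, mv_zq])]
  exact Finset.prod_congr rfl fun i _ => Kz.sim_gal h (mul_ne_zero hM hM') hR _ _

variable {t : ℂ} {D : ℕ} {B : ℝ}

theorem Base.tw_int (b : Base τ r t D B) (c x : VQ κ) :
    IsIntegral ℤ ((D : ℂ) ^ Fintype.card κ * Tw τ t (cr c) (cr x)) := by
  rw [ari_twq, mul_left_comm, ← Finset.card_univ, ← Finset.prod_const, ← Finset.prod_mul_distrib]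
  exact IsIntegral.mul (IsIntegral.of_pow (Rat.den_pos _) ((ari_pow _).symm ▸ isIntegral_one))
    (IsIntegral.prod _ fun i _ => (b.ar Bool 0 _).int _)

theorem Base.tw_conj (b : Base τ r t D B) (φ : ℂ ≃+* ℂ) (c x : VQ κ) :
    ‖φ (Tw τ t (cr c) (cr x))‖ ≤ B ^ Fintype.card κ := by
  rw [ari_twq, map_mul, norm_mul, map_prod, norm_prod, Complex.norm_eq_one_of_pow_eq_one
    (by rw [← map_pow, ari_pow, map_one]) (Rat.den_nz _), one_mul, ← Finset.card_univ,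
    ← Finset.prod_const]
  exact Finset.prod_le_prod (fun _ _ => norm_nonneg _) fun i _ => (b.ar Bool 0 _).conj φ _

theorem Base.tw_bd (b : Base τ r t D B) (c x : VR κ) : ‖Tw τ t c x‖ ≤ B ^ Fintype.card κ := by
  rw [ari_tw, norm_mul, norm_ee_real, one_mul, norm_prod, ← Finset.card_univ, ← Finset.prod_const]
  exact Finset.prod_le_prod (fun _ _ => norm_nonneg _) fun i _ => (b.ar Bool 0 _).bd _

theorem Base.tw_gal (h : AV τ K r) (b : Base τ r t D B) (σ : ℂ ≃ₐ[K] ℂ) (c x : VQ κ) :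
    ∀ᶠ R in lf r σ, σ (Tw τ t (cr c) (cr x)) = Tw τ t (cr (mv R c)) (cr (mv R x)) := by
  filter_upwards [ee_gal h σ (1 / 2) c x, eventually_all.2 fun i =>
    (b.ar Bool 0 fun _ => 1 / 2).gal σ trivial fun a => cond a (c i) (x i)] with R h1 h2
  rw [ari_twq, ari_twq, map_mul, map_prod, h1]
  refine congrArg _ (Finset.prod_congr rfl fun i _ => (h2 i).trans ?_)
  exact congrArg (fun y => bas τ t 0 _ (cr y)) (funext fun a => by cases a <;> rfl)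

end MG.F
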