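import Pool.Agent.Lib.MP_33b3f9_ag.MG.F.Dz
import Pool.Agent.Lib.MP_33b3f9_ag.MG.F.Dual
import Pool.Agent.Lib.MP_33b3f9_ag.M4.F.Cov

/-!
The chain of lattices.
-/

set_option autoImplicit false

namespace MG.F

open Matrix M4 M4.F

variable [Dim] [Bs] {K : IntermediateField ℚ ℂ} {r : Rep K} {U : Subgroup (ℂ ≃ₐ[K] ℂ)} {N n : ℕ}

omit [Bs] in
theorem lat_two (n N : ℕ) (S : MZ) : 2 • ((n * N : ℕ) : ℤ) • S = ((2 * n * N : ℕ) : ℤ) • S := by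
  rw [two_nsmul, ← add_smul, mul_assoc, two_mul, Nat.cast_add]

omit [Bs] in
theorem AA_anti {M : ℕ} (h : M ∣ N) : AA r U N ≤ AA r U M := by
  exact AddSubgroup.closure_mono fun R ⟨σ, hσ, hR⟩ => ⟨σ, hσ, cong_of_dvd h hR⟩

theorem mv_qq (R S : MZ) : mv R (qq n S) = qq n (R * S) := by
  rw [qq_apply, qq_apply, mv_smul, mv_col]

theorem qq_two (hn : n ≠ 0) (R : MZ) : 2 • qq (2 * n) R = qq n R := by
  have h0 : (n : ℚ) ≠ 0 := Nat.cast_ne_zero.2 hn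
  have e : ((2 : ℕ) : ℚ) * ((2 * n : ℕ) : ℚ)⁻¹ = (n : ℚ)⁻¹ := by
    push_cast
    field_simp
  rw [qq_apply, qq_apply, ← Nat.cast_smul_eq_nsmul ℚ, smul_smul, e]

theorem gen_LL {σ : ℂ ≃ₐ[K] ℂ} (hσ : σ ∈ U) {R : MZ} (hR : Cong r σ (n * N) R) :
    qq n R ∈ LL r U N n := by
  exact ⟨R, AddSubgroup.subset_closure ⟨σ, hσ, hR⟩, rfl⟩

theorem one_LL : qq n 1 ∈ LL r U N n := by
  exact ⟨1, one_mem_AA, rfl⟩

theorem zl_LL (hn : n ≠ 0) : zl μ (Bs.c * N) ≤ LL r U N n := by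
  intro x hx
  have h0 : (n : ℚ) ≠ 0 := Nat.cast_ne_zero.2 hn
  obtain ⟨a, rfl⟩ := mem_zl.1 hx
  refine ⟨_, dual_smul_mem ((Matrix.of a)ᵀ * Bs.w), ?_⟩
  rw [qq_apply, map_zsmul, col_w, ← Int.cast_smul_eq_zsmul ℚ, smul_smul, smul_smul]
  congr 1
  push_cast
  field_simp

theorem LL_stab {σ : ℂ ≃ₐ[K] ℂ} (hσ : σ ∈ U) {R : MZ} (hR : Cong r σ (n * N) R) {x : VQ μ}
    (hx : x ∈ LL r U N n) : mv R x ∈ LL r U N n := by
  obtain ⟨S, hS, rfl⟩ := hx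
  exact ⟨R * S, mul_mem_AA hσ hR hS, (mv_qq R S).symm⟩

theorem two_LL (hn : n ≠ 0) {x : VQ μ} (hx : x ∈ LL r U N (2 * n)) : 2 • x ∈ LL r U N n := by
  obtain ⟨S, hS, rfl⟩ := hx
  exact ⟨S, AA_anti ⟨2, by ring⟩ hS, (qq_two hn S).symm⟩

/-- For a generator `R` of level `n N` take a lift `R'` of level `2 n N` (`Kz.exists_cong`);
`R = R' + n N S` (`cong_sub`), so `2 • R ∈ AA r U (2 * n * N)`. -/
theorem LL_le (hN : N ≠ 0) (hn : n ≠ 0) : LL r U N n ≤ LL r U N (2 * n) := by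
  have h0 : 2 * n * N ≠ 0 := mul_ne_zero (mul_ne_zero two_ne_zero hn) hN
  have h1 : AA r U (n * N) ≤ dv 2 (AA r U (2 * n * N)) := by
    refine (AddSubgroup.closure_le _).2 fun R ⟨σ, hσ, hR⟩ => mem_dv.2 ?_
    obtain ⟨R', hR'⟩ := Kz.exists_cong r σ h0
    obtain ⟨S, rfl⟩ := cong_sub (mul_ne_zero hn hN) hR (cong_of_dvd ⟨2, by ring⟩ hR')
    rw [smul_add, lat_two]
    have h2 : R' ∈ AA r U (2 * n * N) := AddSubgroup.subset_closure ⟨σ, hσ, hR'⟩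
    exact add_mem (nsmul_mem h2 2) (dual_smul_mem S)
  rintro _ ⟨S, hS, rfl⟩
  exact ⟨2 • S, mem_dv.1 (h1 hS), by rw [map_nsmul, qq_two hn]⟩

/-- Two lifts of level `2 n N` of the same element. -/
theorem qq_sub_mem (hN : N ≠ 0) (hn : n ≠ 0) {σ : ℂ ≃ₐ[K] ℂ} {R R' : MZ}
    (hR : Cong r σ (2 * n * N) R) (hR' : Cong r σ (2 * n * N) R') :
    qq (2 * n) R - qq (2 * n) R' ∈ LL r U N n := by
  obtain ⟨S, rfl⟩ := cong_sub (mul_ne_zero (mul_ne_zero two_ne_zero hn) hN) hR hR'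
  rw [map_add, add_sub_cancel_left, ← lat_two, map_nsmul, qq_two hn]
  exact ⟨_, dual_smul_mem S, rfl⟩

/-- `cov` for `A = AA r U (2 * n * N)` and `k = 2` (`MZ` has rank `rk`): `cl R` is the
representative of `R ∈ A`; equal representatives give `R - R' = 2 • y`, `y ∈ A`. -/
theorem exists_cl (hn : n ≠ 0) : ∃ (T : Finset MZ) (cl : MZ → MZ), T.card ≤ 2 ^ rk ∧
    (∀ R ∈ AA r U (2 * n * N), cl R ∈ T) ∧
    ∀ R ∈ AA r U (2 * n * N), ∀ R' ∈ AA r U (2 * n * N), cl R = cl R' →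
      qq (2 * n) R - qq (2 * n) R' ∈ LL r U N n := by
  classical
  obtain ⟨T, h1, -, h2⟩ := cov (AA r U (2 * n * N)) two_ne_zero
  have e : Module.finrank ℤ MZ = rk := rfl
  rw [e] at h1
  choose! cl h3 y h4 h5 using h2
  refine ⟨T, cl, h1, h3, fun R hR R' hR' hc => ?_⟩
  have e2 : R - R' = 2 • (y R - y R') := by
    rw [smul_sub]
    calc R - R' = (cl R + 2 • y R) - (cl R' + 2 • y R') := by rw [← h5 R hR, ← h5 R' hR']
      _ = _ := by rw [hc, add_sub_add_left_eq_sub]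
  rw [← map_sub, e2, map_nsmul]
  exact two_LL hn ⟨_, sub_mem (h4 R hR) (h4 R' hR'), rfl⟩

end MG.F
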