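import Pool.Agent.Lib.MP_33b3f9_ag.MG.F.Lat

/-!
The stabiliser of the class of `1 / (2 n)` and its orbit.
-/

set_option autoImplicit false

namespace MG.F

open Matrix M4 M4.F

variable [Dim] [Bs] {K : IntermediateField ℚ ℂ} {r : Rep K} {U : Subgroup (ℂ ≃ₐ[K] ℂ)} {N n : ℕ}

omit [Bs] in
theorem stb_one (M : ℕ) : Cong r 1 M 1 := by
  have h := cong_one r M 0
  rwa [smul_zero, add_zero] at h

theorem stb_left {σ : ℂ ≃ₐ[K] ℂ} (hσ : σ ∈ U) {R A B : MZ} (hR : Cong r σ (2 * n * N) R)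
    (h : qq (2 * n) A - qq (2 * n) B ∈ LL r U N n) :
    qq (2 * n) (R * A) - qq (2 * n) (R * B) ∈ LL r U N n := by
  have h1 := LL_stab hσ (cong_of_dvd (mul_assoc 2 n N ▸ dvd_mul_left (n * N) 2) hR) h
  rwa [← map_sub, mv_qq, mul_sub, map_sub] at h1

/-- `H` is the set of the `σ ∈ U` with the property for one (by `qq_sub_mem` for every) lift.
Products: `R R' - 1 = R (R' - 1) + (R - 1)` (`LL_stab`, `mv_qq`, `cong_mul`); inverses: with a lift
`R'` of `σ⁻¹`, `R' R` is a lift of `1` and `R' - 1 = (R' R - 1) - R' (R - 1)`. Index: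
`index_le_of_map` in the group `U` for `H.subgroupOf U` and `σ ↦ cl (a lift of σ)` (`exists_cl`),
then `Subgroup.relIndex_mul_index`. -/
theorem exists_stab (hN : N ≠ 0) (hn : n ≠ 0) [U.FiniteIndex] :
    ∃ H : Subgroup (ℂ ≃ₐ[K] ℂ), H ≤ U ∧ H.FiniteIndex ∧ H.index ≤ 2 ^ rk * U.index ∧
      ∀ σ ∈ H, ∀ R, Cong r σ (2 * n * N) R → qq (2 * n) R - qq (2 * n) 1 ∈ LL r U N n := by
  have hM : 2 * n * N ≠ 0 := mul_ne_zero (mul_ne_zero two_ne_zero hn) hN
  choose L hL using fun σ => Kz.exists_cong r σ hM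
  let H : Subgroup (ℂ ≃ₐ[K] ℂ) :=
    { carrier := {σ | σ ∈ U ∧
        ∀ R, Cong r σ (2 * n * N) R → qq (2 * n) R - qq (2 * n) 1 ∈ LL r U N n}
      one_mem' := ⟨U.one_mem, fun R hR => qq_sub_mem hN hn hR (stb_one _)⟩
      mul_mem' := fun {a b} ha hb => ⟨U.mul_mem ha.1 hb.1, fun R hR => by
        have h1 := add_mem (add_mem (qq_sub_mem hN hn hR (cong_mul (hL a) (hL b)))
          (stb_left ha.1 (hL a) (hb.2 _ (hL b)))) (ha.2 _ (hL a))
        rwa [mul_one, sub_add_sub_cancel, sub_add_sub_cancel] at h1⟩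
      inv_mem' := fun {a} ha => ⟨U.inv_mem ha.1, fun R hR => by
        have h0 := cong_mul hR (hL a)
        rw [inv_mul_cancel] at h0
        have h1 := sub_mem (qq_sub_mem (U := U) hN hn h0 (stb_one _))
          (stb_left (U.inv_mem ha.1) hR (ha.2 _ (hL a)))
        rwa [mul_one, sub_sub_sub_cancel_left] at h1⟩ }
  have hle : H ≤ U := fun σ h => h.1
  obtain ⟨T, cl, hT, h1, h2⟩ := exists_cl (r := r) (U := U) (N := N) hn
  have hA : ∀ g : U, L g ∈ AA r U (2 * n * N) := fun g =>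
    AddSubgroup.subset_closure ⟨g, g.2, hL g⟩
  obtain ⟨h3, h4⟩ := index_le_of_map (H.subgroupOf U) T (fun g => cl (L g))
    (fun g => h1 _ (hA g)) fun g g' h => ⟨(g⁻¹ * g').2, fun R hR => by
      have h0 := cong_mul (hL (g : ℂ ≃ₐ[K] ℂ)⁻¹) (hL g)
      rw [inv_mul_cancel] at h0
      have h5 := add_mem (add_mem (qq_sub_mem hN hn hR (cong_mul (hL (g : ℂ ≃ₐ[K] ℂ)⁻¹) (hL g')))
        (stb_left (U.inv_mem g.2) (hL _) (h2 _ (hA g') _ (hA g) h.symm)))
        (qq_sub_mem hN hn h0 (stb_one _))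
      rwa [sub_add_sub_cancel, sub_add_sub_cancel] at h5⟩
  have h5 := Subgroup.relIndex_mul_index hle
  refine ⟨H, hle, ⟨?_⟩, ?_, fun σ h => h.2⟩
  · rw [← h5]
    exact mul_ne_zero h3.index_ne_zero Subgroup.FiniteIndex.index_ne_zero
  · rw [← h5]
    exact Nat.mul_le_mul_right _ (h4.trans hT)

/-- One generator in every class of `exists_cl` that contains a generator. -/
theorem exists_cls (hn : n ≠ 0) :
    ∃ P : Finset MZ, P.card ≤ 2 ^ rk ∧ (∀ R ∈ P, ∃ σ ∈ U, Cong r σ (2 * n * N) R) ∧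
      ∀ σ ∈ U, ∀ R, Cong r σ (2 * n * N) R →
        ∃ R' ∈ P, qq (2 * n) R - qq (2 * n) R' ∈ LL r U N n := by
  classical
  obtain ⟨T, cl, hT, h1, h2⟩ := exists_cl (r := r) (U := U) (N := N) hn
  have h3 : ∀ t, ∃ R, (∃ σ ∈ U, Cong r σ (2 * n * N) R) ∧
      ((∃ R', (∃ σ ∈ U, Cong r σ (2 * n * N) R') ∧ cl R' = t) → cl R = t) := fun t => by
    by_cases h : ∃ R', (∃ σ ∈ U, Cong r σ (2 * n * N) R') ∧ cl R' = t
    · obtain ⟨R, h4, h5⟩ := h
      exact ⟨R, h4, fun _ => h5⟩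
    · exact ⟨1, ⟨1, U.one_mem, stb_one _⟩, fun h' => absurd h' h⟩
  choose g hg hg' using h3
  refine ⟨T.image g, Finset.card_image_le.trans hT, fun R hR => ?_, fun σ hσ R hR => ?_⟩
  · obtain ⟨t, -, rfl⟩ := Finset.mem_image.1 hR
    exact hg t
  · have h4 : R ∈ AA r U (2 * n * N) := AddSubgroup.subset_closure ⟨σ, hσ, hR⟩
    exact ⟨g (cl R), Finset.mem_image_of_mem g (h1 R h4), h2 R h4 _
      (AddSubgroup.subset_closure (hg _)) (hg' _ ⟨R, ⟨σ, hσ, hR⟩, rfl⟩).symm⟩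

/-- `AddSubgroup.closure_induction_left` (or: the set of the right sides is closed under adding
`qq (2 * n) R` and `- qq (2 * n) R` for a generator `R`): insert `R'` in `P'`, or erase it, using
`2 • qq (2 * n) R' = qq n R' ∈ LL r U N n`. -/
theorem LL_sum (hn : n ≠ 0) {P : Finset MZ} (h1 : ∀ R ∈ P, ∃ σ ∈ U, Cong r σ (2 * n * N) R)
    (h2 : ∀ σ ∈ U, ∀ R, Cong r σ (2 * n * N) R →
      ∃ R' ∈ P, qq (2 * n) R - qq (2 * n) R' ∈ LL r U N n) {x : VQ μ}
    (hx : x ∈ LL r U N (2 * n)) :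
    ∃ P' ⊆ P, x - ∑ R ∈ P', qq (2 * n) R ∈ LL r U N n := by
  classical
  have two : ∀ R ∈ P, qq (2 * n) R + qq (2 * n) R ∈ LL r U N n := fun R hR => by
    obtain ⟨σ, hσ, h⟩ := h1 R hR
    rw [← two_nsmul, qq_two hn]
    exact gen_LL hσ (cong_of_dvd (mul_assoc 2 n N ▸ dvd_mul_left (n * N) 2) h)
  have step : ∀ R ∈ P, ∀ y z : VQ μ, y - qq (2 * n) R ∈ LL r U N n →
      (∃ P' ⊆ P, z - ∑ R ∈ P', qq (2 * n) R ∈ LL r U N n) →
        ∃ P' ⊆ P, y + z - ∑ R ∈ P', qq (2 * n) R ∈ LL r U N n := by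
    rintro R hR y z hy ⟨P', hP, hz⟩
    by_cases h : R ∈ P'
    · refine ⟨P'.erase R, (Finset.erase_subset _ _).trans hP, ?_⟩
      rw [← Finset.add_sum_erase _ _ h] at hz
      have h3 := add_mem (add_mem hy hz) (two R hR)
      rwa [show y - qq (2 * n) R + (z - (qq (2 * n) R + ∑ R ∈ P'.erase R, qq (2 * n) R)) +
        (qq (2 * n) R + qq (2 * n) R) = y + z - ∑ R ∈ P'.erase R, qq (2 * n) R by abel] at h3
    · refine ⟨insert R P', Finset.insert_subset hR hP, ?_⟩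
      rw [Finset.sum_insert h, ← sub_add_sub_comm]
      exact add_mem hy hz
  obtain ⟨A, hA, rfl⟩ := hx
  induction hA using AddSubgroup.closure_induction_left with
  | zero => exact ⟨∅, Finset.empty_subset _, by simp⟩
  | add_left R hR A _ ih =>
    obtain ⟨σ, hσ, h⟩ := hR
    obtain ⟨R', h3, h4⟩ := h2 σ hσ R h
    rw [map_add]
    exact step R' h3 _ _ h4 ih
  | neg_add_cancel R hR A _ ih =>
    obtain ⟨σ, hσ, h⟩ := hR
    obtain ⟨R', h3, h4⟩ := h2 σ hσ R h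
    rw [map_add, map_neg]
    refine step R' h3 _ _ ?_ ih
    have h5 := neg_mem (add_mem h4 (two R' h3))
    rwa [show -(qq (2 * n) R - qq (2 * n) R' + (qq (2 * n) R' + qq (2 * n) R')) =
      -qq (2 * n) R - qq (2 * n) R' by abel] at h5

end MG.F
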